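import Mathlib
import Pool.Agent.helper391_DG.Dig
import Pool.Agent.helper391_NV.Niven

set_option autoImplicit false

/-! Self numbers. -/

namespace Pool.Agent.helper391_SN

open Finset
open Pool.Agent.helper391_DG

/-- There are self numbers between `L` and `b ^ i`, if `L < b ^ (i - 3)`. -/
theorem exists_self (b i L : ℕ) (hb : 2 ≤ b) (hi : 3 ≤ i) (hL : L < b ^ (i - 3)) :
    ∃ a : ℕ, L ≤ a ∧ a < b ^ i ∧ ∀ c : ℕ, c + ds b c ≠ a := by
  classical
  by_contra hcon
  push Not at hcon
  set G : ℕ → ℕ := fun c => c + ds b c with hG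
  have hb2 : 2 * b ≤ b ^ 2 := by rw [pow_two]; exact Nat.mul_le_mul_right _ hb
  have hb3 : 2 * b ^ 2 ≤ b ^ 3 := by rw [pow_succ' b 2]; exact Nat.mul_le_mul_right _ hb
  set D : Finset ℕ := (range (b ^ i)).filter (fun c => c % b ^ 3 ≠ b ^ 2) with hD
  -- the values are taken on `D`
  have hcoll : ∀ c : ℕ, c < b ^ i → ∃ c' ∈ D, G c' = G c := by
    intro c hc
    by_cases h : c % b ^ 3 = b ^ 2
    · have h1 := Nat.div_add_mod c (b ^ 3)
      rw [h] at h1
      set w := c / b ^ 3 with hw
      have hc' : c = w * b ^ 3 + b ^ 2 := by rw [← h1]; ring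
      obtain ⟨b', rfl⟩ : ∃ b', b = b' + 1 := ⟨b - 1, by omega⟩
      have e1 : (b' + 1) ^ 2 = (b' * (b' + 1) + 1) + b' := by ring
      refine ⟨w * (b' + 1) ^ 3 + (b' * (b' + 1) + 1), ?_, ?_⟩
      · rw [hD, mem_filter, mem_range]
        refine ⟨by omega, ?_⟩
        rw [Nat.mul_comm w, Nat.mul_add_mod, Nat.mod_eq_of_lt (by omega)]
        omega
      · have e2 : ds (b' + 1) (b' * (b' + 1) + 1) = b' + 1 := by
          have h2 := ds_add hb b' 1 (by omega)
          have h3 := ds_lt hb b' (by omega)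
          rw [mul_comm (b' + 1) b'] at h2
          omega
        have e3 : ds (b' + 1) ((b' + 1) ^ 2) = 1 := by
          have h2 := ds_split hb 2 1 0 (by positivity)
          rw [one_mul, add_zero, ds_zero, add_zero] at h2
          rw [h2]
          exact ds_lt hb 1 (by omega)
        have e4 := ds_split hb 3 w (b' * (b' + 1) + 1) (by omega)
        have e5 := ds_split hb 3 w ((b' + 1) ^ 2) (by omega)
        rw [hG]
        show w * (b' + 1) ^ 3 + (b' * (b' + 1) + 1) + ds (b' + 1) (w * (b' + 1) ^ 3 + (b' * (b' + 1) + 1)) =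
          c + ds (b' + 1) c
        rw [hc', e4, e5, e2, e3]
        omega
    · exact ⟨c, by rw [hD, mem_filter, mem_range]; exact ⟨hc, h⟩, rfl⟩
  have hsub : Ico L (b ^ i) ⊆ D.image G := by
    intro a ha
    rw [mem_Ico] at ha
    obtain ⟨c, hc⟩ := hcon a ha.1 ha.2
    obtain ⟨c', hc1, hc2⟩ := hcoll c (by omega)
    rw [mem_image]
    exact ⟨c', hc1, by rw [hc2, hG]; exact hc⟩
  have h1 := (card_le_card hsub).trans card_image_le
  rw [Nat.card_Ico] at h1
  -- the cardinality of `D`
  have h2 : b ^ (i - 3) ≤ ((range (b ^ i)).filter (fun c => ¬ (c % b ^ 3 ≠ b ^ 2))).card := by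
    have h3 : (range (b ^ (i - 3))).card ≤
        ((range (b ^ i)).filter (fun c => ¬ (c % b ^ 3 ≠ b ^ 2))).card := by
      apply Finset.card_le_card_of_injOn (fun w => b ^ 3 * w + b ^ 2)
      · intro w hw
        rw [mem_coe, mem_range] at hw
        rw [mem_coe, mem_filter, mem_range]
        refine ⟨?_, ?_⟩
        · have e : b ^ i = b ^ 3 * b ^ (i - 3) := by rw [← pow_add]; congr 1; omega
          have h4 : b ^ 3 * (w + 1) ≤ b ^ 3 * b ^ (i - 3) := Nat.mul_le_mul_left _ hw
          show b ^ 3 * w + b ^ 2 < b ^ i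
          rw [e]
          have h5 : b ^ 3 * (w + 1) = b ^ 3 * w + b ^ 3 := by ring
          have h6 : 0 < b ^ 2 := by positivity
          omega
        · rw [not_not]
          show (b ^ 3 * w + b ^ 2) % b ^ 3 = b ^ 2
          have h6 : 0 < b ^ 2 := by positivity
          rw [Nat.mul_add_mod, Nat.mod_eq_of_lt (by omega)]
      · intro w _ w' _ hww
        have h4 : b ^ 3 * w + b ^ 2 = b ^ 3 * w' + b ^ 2 := hww
        have h5 : b ^ 3 * w = b ^ 3 * w' := by omega
        exact Nat.eq_of_mul_eq_mul_left (by positivity) h5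
    rwa [card_range] at h3
  have h3 := Finset.card_filter_add_card_filter_not (s := range (b ^ i)) (fun c => c % b ^ 3 ≠ b ^ 2)
  rw [card_range] at h3
  have h4 : D.card + b ^ (i - 3) ≤ b ^ i := by rw [hD]; omega
  have h5 : b ^ (i - 3) ≤ b ^ i := Nat.pow_le_pow_right (by omega) (by omega)
  omega

/-- A criterion for self numbers. -/
theorem self_of {b j w a A₁ : ℕ} (hb : 2 ≤ b) (hw : w % b = 1) (ha : a = ds b w + A₁)
    (haj : a < b ^ j) (hA : (b - 1) * j ≤ A₁) (hself : ∀ c : ℕ, c + ds b c ≠ A₁)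
    (hs : ∀ c : ℕ, c ≤ w * b ^ j + a → ds b c < b ^ j) :
    ∀ c : ℕ, c + ds b c ≠ w * b ^ j + a := by
  intro c hc
  have hsb := hs c (by omega)
  set s := ds b c with hsdef
  rcases le_or_gt s a with h | h
  · have h1 : c = w * b ^ j + (a - s) := by omega
    have h2 := ds_split hb j w (a - s) (by omega)
    rw [← h1] at h2
    apply hself (a - s)
    omega
  · have hw1 : 1 ≤ w := by
      rcases Nat.eq_zero_or_pos w with h0 | h0
      · rw [h0, Nat.zero_mod] at hw; omega
      · exact h0
    obtain ⟨w', hw'⟩ : ∃ w', w = w' + 1 := ⟨w - 1, by omega⟩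
    have h1 : c = w' * b ^ j + (b ^ j + a - s) := by
      have : w * b ^ j = w' * b ^ j + b ^ j := by rw [hw']; ring
      omega
    have h2 := ds_split hb j w' (b ^ j + a - s) (by omega)
    rw [← h1] at h2
    have h3 : ds b w = ds b w' + 1 := by
      have h4 := Nat.div_add_mod w b
      rw [hw] at h4
      have h5 := ds_add hb (w / b) 1 (by omega)
      rw [h4] at h5
      have h6 := ds_add hb (w / b) 0 (by omega)
      rw [add_zero, add_zero] at h6
      have h7 : w' = b * (w / b) := by omega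
      rw [h5, h7, h6]
    have h4 : ds b (b ^ j + a - s) ≤ (b - 1) * j :=
      Pool.Agent.helper391_NV.ds_le hb j _ (by omega)
    omega

end Pool.Agent.helper391_SN
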