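import Mathlib
import Pool.Agent.helper391_NV.Niven
import Pool.Agent.helper391_SN.Self

set_option autoImplicit false

/-! Self numbers in the middle of record gaps between primes. -/

namespace Pool.Agent.helper391_SN

open Filter
open Pool.Agent.helper391_DG Pool.Agent.helper391_NV

theorem lin_small (b K : ℕ) (hb : 2 ≤ b) : ∀ᶠ j : ℕ in atTop, K * (b * j) < b ^ (j - 5) := by
  have h1 := tendsto_pow_const_div_const_pow_of_one_lt 1 (show (1 : ℝ) < b by exact_mod_cast hb)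
  have hpos : (0 : ℝ) < 1 / (K * b * b ^ 5 + 1) := by positivity
  have h2 := h1.eventually (gt_mem_nhds hpos)
  filter_upwards [h2, eventually_ge_atTop 5] with j hj h5
  have hb0 : (0 : ℝ) < b := by exact_mod_cast (by omega : 0 < b)
  have h3 : (0 : ℝ) < (b : ℝ) ^ j := by positivity
  rw [div_lt_iff₀ h3, one_div_mul_eq_div, lt_div_iff₀ (by positivity), pow_one] at hj
  have h4 : ((K * (b * j) * b ^ 5 : ℕ) : ℝ) < ((b ^ j : ℕ) : ℝ) := by
    push_cast
    have : (0 : ℝ) ≤ j := Nat.cast_nonneg _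
    nlinarith
  have h6 : K * (b * j) * b ^ 5 < b ^ j := by exact_mod_cast h4
  have h7 : b ^ j = b ^ (j - 5) * b ^ 5 := by rw [← pow_add]; congr 1; omega
  rw [h7] at h6
  exact lt_of_mul_lt_mul_right h6 (Nat.zero_le _)

theorem selfnum (b : ℕ) (hb : 2 ≤ b) (ε : ℝ) (hε : 0 < ε) :
    ∃ κ : ℝ, 0 < κ ∧ ∃ M₀ : ℕ, ∀ M : ℕ, M₀ ≤ M → ∃ n : ℕ, M < n ∧ (n : ℝ) ≤ M + (M : ℝ) ^ ε ∧
      (∀ c : ℕ, c + ds b c ≠ n) ∧ ∀ p : ℕ, p.Prime → κ * F (Real.log M) < |(p : ℝ) - n| := by
  have hbR : (2 : ℝ) ≤ b := by exact_mod_cast hb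
  have hlb : 0 < Real.log b := Real.log_pos (by linarith)
  set ε' : ℝ := min ε 1 with hε'
  have hε'0 : 0 < ε' := lt_min hε one_pos
  have hε'1 : ε' ≤ 1 := min_le_right _ _
  set C₀ : ℝ := 4 / ε' + 2 with hC₀
  have hC₀1 : 1 ≤ C₀ := by
    have : 0 ≤ 4 / ε' := by positivity
    linarith
  obtain ⟨κ, hκ, r₀, hmain⟩ := main2 b b 1 hb (2 * b ^ 4 * C₀) (1 / 4) (by norm_num)
  obtain ⟨R, hR⟩ := F_scale (1 / C₀) (by positivity)
  set K₂ : ℕ := ⌈8 * C₀⌉₊ + 1 with hK₂
  have hK₂R : 8 * C₀ ≤ K₂ := by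
    have := Nat.le_ceil (8 * C₀)
    rw [hK₂]; push_cast; linarith
  obtain ⟨j₀, hj₀⟩ := eventually_atTop.1 ((lin_small b K₂ hb).and (eventually_ge_atTop 6))
  -- the number of digits
  have hlogt : Tendsto (fun M : ℕ => ((Nat.log b M : ℕ) : ℝ)) atTop atTop := by
    apply tendsto_natCast_atTop_atTop.comp
    rw [tendsto_atTop]
    intro K
    filter_upwards [eventually_ge_atTop (b ^ K)] with M hM
    exact Nat.le_log_of_pow_le (by omega) hM
  have hlogM : Tendsto (fun M : ℕ => Real.log (M : ℝ)) atTop atTop :=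
    Real.tendsto_log_atTop.comp tendsto_natCast_atTop_atTop
  obtain ⟨M₀, hM₀⟩ := eventually_atTop.1 ((((hlogt.eventually_ge_atTop
    (2 * (max (r₀ : ℝ) (8 * b) + 2) / ε')).and (hlogM.eventually_ge_atTop R)).and
      (eventually_ge_atTop b)).and (hlogt.eventually_ge_atTop ((b ^ j₀ : ℕ) : ℝ)))
  refine ⟨κ * (1 / C₀ / 8), by positivity, M₀, fun M hM => ?_⟩
  obtain ⟨⟨⟨b1, b2⟩, b3⟩, b4⟩ := hM₀ M hM
  set N := Nat.log b M with hN
  have hMN : b ^ N ≤ M := Nat.pow_log_le_self b (by omega)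
  have hMN' : M < b ^ (N + 1) := Nat.lt_pow_succ_log_self (by omega) M
  set r : ℕ := ⌊ε' * N / 2⌋₊ with hr
  have hN0 : (0 : ℝ) ≤ ε' * N / 2 := by positivity
  have hr1 : (r : ℝ) ≤ ε' * N / 2 := Nat.floor_le hN0
  have hr2 : ε' * N / 2 < r + 1 := Nat.lt_floor_add_one _
  rw [div_le_iff₀ hε'0] at b1
  have hr3 : max (r₀ : ℝ) (8 * b) + 1 ≤ r := by linarith
  have hrr₀ : r₀ ≤ r := by
    have : (r₀ : ℝ) ≤ r := by linarith [le_max_left (r₀ : ℝ) (8 * b)]
    exact_mod_cast this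
  have hr8 : 8 * b ≤ r := by
    have : (8 : ℝ) * b ≤ r := by linarith [le_max_right (r₀ : ℝ) (8 * b)]
    exact_mod_cast this
  have hr16 : 16 ≤ r := by omega
  have hr16R : (16 : ℝ) ≤ r := by exact_mod_cast hr16
  have hrN : r + 1 ≤ N := by
    have h1 : (r : ℝ) + 1 ≤ N := by
      have h2 : ε' * N ≤ 1 * N := mul_le_mul_of_nonneg_right hε'1 (Nat.cast_nonneg _)
      linarith
    exact_mod_cast h1
  have hNr : (N : ℝ) + 1 ≤ C₀ * r := by
    have h1 : (N : ℝ) ≤ 2 * (r + 1) / ε' := by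
      rw [le_div_iff₀ hε'0]; linarith
    have h2 : 2 * ((r : ℝ) + 1) / ε' ≤ 4 / ε' * r := by
      rw [div_mul_eq_mul_div]
      apply div_le_div_of_nonneg_right _ hε'0.le
      linarith
    rw [hC₀]; linarith
  -- the prefix
  set A := M / b ^ r + 1 with hA
  have hbr : 0 < b ^ r := pow_pos (by omega) r
  have hAM : M < A * b ^ r := by
    rw [hA, mul_comm]; exact Nat.lt_mul_div_succ M hbr
  have hAM2 : A * b ^ r ≤ M + b ^ r := by
    rw [hA, add_mul, one_mul]
    have := Nat.div_mul_le_self M (b ^ r)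
    omega
  have hAlt : A < b ^ (N + 1) := by
    have h1 : b ^ 1 ≤ b ^ r := Nat.pow_le_pow_right (by omega) (by omega)
    rw [pow_one] at h1
    have h2 : M / b ^ r ≤ M / b := Nat.div_le_div_left h1 (by omega)
    have h3 : M / b < M := Nat.div_lt_self (by omega) (by omega)
    omega
  have hdsA := ds_le hb (N + 1) A hAlt
  -- the number `j` of the last digits
  set Q := b * (N + 2) with hQ
  have hQ4 : 1 < Q := by rw [hQ]; nlinarith
  set i := Nat.clog b Q with hi
  have hQi : Q ≤ b ^ i := Nat.le_pow_clog (by omega) Q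
  have hi0 : 0 < i := Nat.clog_pos (by omega) hQ4
  have hiQ : b ^ (i - 1) < Q := Nat.pow_pred_clog_lt_self (by omega) hQ4
  have hb4 : b ^ j₀ ≤ N := by exact_mod_cast b4
  have hij₀ : j₀ ≤ i := by
    have h1 : N < Q := by rw [hQ]; nlinarith
    have h2 : b ^ j₀ < b ^ i := by omega
    exact ((Nat.pow_lt_pow_iff_right (by omega)).1 h2).le
  set j := i + 1 with hj
  obtain ⟨c1, c2⟩ := hj₀ j (by omega)
  obtain ⟨A₁, hA₁1, hA₁2, hA₁3⟩ := exists_self b (j - 2) ((b - 1) * j) hb (by omega) (by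
    have h1 : (b - 1) * j ≤ b * j := Nat.mul_le_mul_right _ (Nat.sub_le _ _)
    have h2 : b * j ≤ K₂ * (b * j) := Nat.le_mul_of_pos_left _ (by omega)
    have h3 : j - 2 - 3 = j - 5 := by omega
    rw [h3]
    omega)
  -- sizes of the powers
  have hbi : b ^ i = b * b ^ (i - 1) := by rw [← pow_succ']; congr 1; omega
  have hbj : b ^ j = b * b ^ i := by rw [hj, pow_succ']
  have hA₁i : A₁ < b ^ (i - 1) := by
    have : j - 2 = i - 1 := by omega
    rwa [this] at hA₁2
  have hpi : 0 < b ^ (i - 1) := pow_pos (by omega) _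
  have h2i : 2 * b ^ (i - 1) ≤ b ^ i := by rw [hbi]; exact Nat.mul_le_mul_right _ hb
  have h2j : 2 * b ^ i ≤ b ^ j := by rw [hbj]; exact Nat.mul_le_mul_right _ hb
  -- the sum of the upper digits and the lower digits
  set t₀ := r / 4 + 1 with ht₀
  set T := ds b A + t₀ with hT
  set a := T + A₁ with ha
  have hTQ : T ≤ Q := by
    have h1 : ds b A ≤ (b - 1) * (N + 1) := hdsA
    have h2 : t₀ ≤ N := by omega
    obtain ⟨b', hb'⟩ : ∃ b', b = b' + 1 := ⟨b - 1, by omega⟩
    have e1 : b - 1 = b' := by omega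
    rw [e1] at h1
    have e2 : Q = b' * (N + 1) + b' + N + 2 := by rw [hQ, hb']; ring
    omega
  have haj : a < b ^ j := by omega
  have hdsa : ds b a ≤ (b - 1) * j := ds_le hb j a haj
  have hj4 : 4 * ((b - 1) * j) ≤ r := by
    have h1 : (K₂ : ℝ) * ((b * j : ℕ) : ℝ) ≤ 2 * C₀ * r := by
      have h2 : K₂ * (b * j) ≤ N + 2 := by
        have h3 : b ^ (j - 5) ≤ b ^ (i - 1) := Nat.pow_le_pow_right (by omega) (by omega)
        have h4 : b * b ^ (j - 5) ≤ b * (N + 2) := by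
          have h5 : b * b ^ (j - 5) ≤ b ^ (i - 1) := by
            rw [← pow_succ']; exact Nat.pow_le_pow_right (by omega) (by omega)
          omega
        have h6 := Nat.le_of_mul_le_mul_left h4 (by omega : 0 < b)
        omega
      have h3 : ((K₂ * (b * j) : ℕ) : ℝ) ≤ ((N + 2 : ℕ) : ℝ) := by exact_mod_cast h2
      push_cast at h3 ⊢
      have h4 : (N : ℝ) + 2 ≤ 2 * (N + 1) := by
        have : (0 : ℝ) ≤ N := Nat.cast_nonneg _
        linarith
      linarith
    have h2 : 8 * C₀ * ((b * j : ℕ) : ℝ) ≤ 2 * C₀ * r :=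
      (mul_le_mul_of_nonneg_right hK₂R (Nat.cast_nonneg _)).trans h1
    have h3 : (2 * C₀) * (4 * ((b * j : ℕ) : ℝ)) ≤ (2 * C₀) * r := by linarith
    have h4 := le_of_mul_le_mul_left h3 (by linarith)
    have h5 : 4 * (b * j) ≤ r := by exact_mod_cast h4
    have h6 : (b - 1) * j ≤ b * j := Nat.mul_le_mul_right _ (Nat.sub_le _ _)
    omega
  set t := t₀ + ds b a with ht
  obtain ⟨n, hn1, hn2, hn3, hn4, hn5⟩ := hmain r hrr₀ (b ^ (j + 1)) (Nat.one_le_pow _ _ (by omega))
    (by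
      have h1 : b ^ (j + 1) ≤ b ^ 4 * (N + 2) := by
        have e : b ^ (j + 1) = b ^ 3 * b ^ (i - 1) := by
          rw [← pow_add]; congr 1; omega
        rw [e, show b ^ 4 * (N + 2) = b ^ 3 * (b * (N + 2)) by ring]
        exact Nat.mul_le_mul_left _ hiQ.le
      have h2 : ((b ^ (j + 1) : ℕ) : ℝ) ≤ (b : ℝ) ^ 4 * (N + 2) := by exact_mod_cast h1
      rw [pow_one]
      refine h2.trans ?_
      have h3 : (N : ℝ) + 2 ≤ 2 * (C₀ * r) := by
        have : (0 : ℝ) ≤ N := Nat.cast_nonneg _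
        linarith
      calc (b : ℝ) ^ 4 * (N + 2) ≤ (b : ℝ) ^ 4 * (2 * (C₀ * r)) := by gcongr
        _ = _ := by ring)
    (fun p hp hps => Nat.le_of_dvd (by omega) (hp.dvd_of_dvd_pow hps)) A t (b ^ j + a)
    (by
      have h1 : r ≤ 4 * t := by omega
      have h2 : (r : ℝ) ≤ 4 * t := by exact_mod_cast h1
      linarith)
    (by
      have h0 : 4 * t ≤ 2 * r + 4 := by omega
      have h1 : (4 : ℝ) * t ≤ 2 * r + 4 := by exact_mod_cast h0
      have h2 : (3 / 4 : ℝ) * r ≤ ((b : ℝ) - 1 - 1 / 4) * r := by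
        apply mul_le_mul_of_nonneg_right _ (by positivity)
        linarith
      linarith)
    (by
      have hcop : Nat.gcd (b ^ (j + 1)) (b - 1) = 1 := by
        apply Nat.Coprime.pow_left
        obtain ⟨b', hb'⟩ : ∃ b', b = b' + 1 := ⟨b - 1, by omega⟩
        rw [hb', Nat.add_sub_cancel]
        simp
      rw [hcop]
      exact Nat.modEq_one)
  -- the form of `n`
  have ha₁ : b ^ j + a < b ^ (j + 1) := by
    have h1 : 2 * b ^ j ≤ b ^ (j + 1) := by
      rw [pow_succ' b j]; exact Nat.mul_le_mul_right _ hb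
    omega
  have hmod : n % b ^ (j + 1) = b ^ j + a := by
    have h1 : n % b ^ (j + 1) = (b ^ j + a) % b ^ (j + 1) := hn4
    rw [h1, Nat.mod_eq_of_lt ha₁]
  set w := b * (n / b ^ (j + 1)) + 1 with hw
  have hnw : n = w * b ^ j + a := by
    have h1 := Nat.div_add_mod n (b ^ (j + 1))
    rw [hmod] at h1
    have h2 : w * b ^ j = b ^ (j + 1) * (n / b ^ (j + 1)) + b ^ j := by
      rw [hw, pow_succ' b j]; ring
    omega
  have hwb : w % b = 1 := by
    rw [hw, Nat.mul_add_mod, Nat.mod_eq_of_lt (by omega)]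
  have hdsw : ds b w = T := by
    have h1 := ds_split hb j w a haj
    rw [← hnw, hn3] at h1
    omega
  have hnlt : n < b ^ (N + 2) := by
    have h2 : (A + 1) * b ^ r ≤ M + 2 * b ^ r := by
      rw [add_mul, one_mul]; omega
    have h3 : 2 * b ^ r ≤ b ^ (r + 1) := by
      rw [pow_succ']; exact Nat.mul_le_mul_right _ hb
    have h4 : b ^ (r + 1) ≤ b ^ (N + 1) := Nat.pow_le_pow_right (by omega) (by omega)
    have h5 : 2 * b ^ (N + 1) ≤ b ^ (N + 2) := by
      rw [pow_succ' b (N + 1)]; exact Nat.mul_le_mul_right _ hb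
    omega
  have hself := self_of (j := j) hb hwb (a := a) (by rw [hdsw]) haj hA₁1 hA₁3 (by
    intro c hc
    rw [← hnw] at hc
    have h1 := ds_le hb (N + 2) c (by omega)
    have h2 : (b - 1) * (N + 2) ≤ Q := by
      rw [hQ]; exact Nat.mul_le_mul_right _ (Nat.sub_le _ _)
    omega)
  rw [← hnw] at hself
  refine ⟨n, lt_of_lt_of_le hAM hn1, ?_, hself, ?_⟩
  · have h1 : n ≤ M + b ^ (r + 1) := by
      have h2 : (A + 1) * b ^ r ≤ M + 2 * b ^ r := by
        rw [add_mul, one_mul]; omega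
      have h3 : 2 * b ^ r ≤ b ^ (r + 1) := by
        rw [pow_succ']; exact Nat.mul_le_mul_right _ hb
      omega
    have h2 : (n : ℝ) ≤ M + (b : ℝ) ^ (r + 1) := by exact_mod_cast h1
    refine h2.trans ?_
    have h3 : (b : ℝ) ^ (r + 1) ≤ (M : ℝ) ^ ε' := by
      have h4 : ((b : ℝ) ^ N) ^ ε' ≤ (M : ℝ) ^ ε' := by
        apply Real.rpow_le_rpow (by positivity) _ hε'0.le
        exact_mod_cast hMN
      refine le_trans ?_ h4
      rw [← Real.rpow_natCast (b : ℝ) N, ← Real.rpow_mul (by linarith), ← Real.rpow_natCast]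
      apply Real.rpow_le_rpow_of_exponent_le (by linarith)
      push_cast
      linarith
    have h4 : (M : ℝ) ^ ε' ≤ (M : ℝ) ^ ε := by
      apply Real.rpow_le_rpow_of_exponent_le _ (min_le_left _ _)
      have : 1 ≤ M := by omega
      exact_mod_cast this
    linarith
  · intro p hp
    refine lt_of_le_of_lt ?_ (hn5 p hp)
    have hMR : (0 : ℝ) < M := by
      have : 0 < M := by omega
      exact_mod_cast this
    have h1 : 1 / C₀ * Real.log M ≤ Real.log ((b : ℝ) ^ r) := by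
      have h2 : Real.log M ≤ (N + 1) * Real.log b := by
        have h3 : (M : ℝ) ≤ (b : ℝ) ^ (N + 1) := by exact_mod_cast hMN'.le
        have h4 := Real.log_le_log hMR h3
        rw [Real.log_pow] at h4
        push_cast at h4
        exact h4
      rw [Real.log_pow, one_div, inv_mul_le_iff₀ (by linarith)]
      calc Real.log M ≤ (N + 1) * Real.log b := h2
        _ ≤ (C₀ * r) * Real.log b := mul_le_mul_of_nonneg_right hNr hlb.le
        _ = _ := by ring
    have h2 : Real.log ((b : ℝ) ^ r) ≤ Real.log M := by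
      apply Real.log_le_log (by positivity)
      have h3 : b ^ r ≤ M := (Nat.pow_le_pow_right (by omega) (by omega : r ≤ N)).trans hMN
      exact_mod_cast h3
    obtain ⟨h3, h4⟩ := hR (Real.log M) b2 _ h1 h2
    calc κ * (1 / C₀ / 8) * F (Real.log M) = κ * (1 / C₀ / 8 * F (Real.log M)) := by ring
      _ ≤ κ * F (Real.log ((b : ℝ) ^ r)) := by gcongr

end Pool.Agent.helper391_SN
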